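import Pool.Agent.P.MP_636dfe_co.Zs

set_option autoImplicit false

namespace Pool.Agent.P.MP_636dfe_co.Old.PrimeRate

open Pool.Agent.P.MP_636dfe_co

theorem result (p : ℕ) [Fact p.Prime] (hp : p ≠ 2) (k i j : ℕ)
    (hk : 2 * k ≤ (39 * j + i) * ((p - 1) * (p - 2))) :
    ∃ B : Finset (Fin k → ZMod p),
      (∀ a b : Fin k → ZMod p, b ≠ 0 → ∃ t : ZMod p, a + t • b ∈ B) ∧
      (B.card : ℝ) ≤ (1 - (13800409399296 / (p : ℝ) ^ 39) ^ j * (2 / (p : ℝ)) ^ i) * (p : ℝ) ^ k := by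
  obtain ⟨B, h1, h2⟩ := blk_zs p _ _ k (zs_main p hp j i) hk
  refine ⟨B, h1, h2.trans (le_of_eq ?_)⟩
  congr 2
  push_cast
  rw [div_pow, div_pow, ← pow_mul, pow_add, mul_div_mul_comm]

end Pool.Agent.P.MP_636dfe_co.Old.PrimeRate
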